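import Pool.Agent.H29.Sign1

namespace Pool.Agent.Results.MP_b48a23_an.Counter

open Filter Topology Finset Pool.Agent.H29.Sign MeasureTheory
open scoped ENNReal NNReal

/-- The space of sign sequences. -/
def Om : Type := ℕ → Bool

/-- The metric `2 ^ (-first difference)`. -/
noncomputable instance metricOm : MetricSpace Om := PiNat.metricSpace (E := fun _ : ℕ => Bool)

/-- The set `E_L`. -/
def EL (a : ℕ → ℝ × ℝ) (L : ℝ × ℝ) : Set Om :=
  {e | Tendsto (fun N => ∑ n ∈ range N, sg (e n) • a n) atTop (𝓝 L)}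

lemma geo_le (f : ℕ → Bool) {u v : ℕ} (h : u ≤ v) :
    |∑ m ∈ Ico u v, sg (f m) * (1 / 2 : ℝ) ^ m| ≤ 2 * (1 / 2) ^ u - 2 * (1 / 2) ^ v := by
  induction v, h using Nat.le_induction with
  | base => simp
  | succ v h ih =>
    rw [sum_Ico_succ_top h]
    refine (abs_add_le _ _).trans ?_
    rw [abs_mul, abs_sg, abs_of_pos (a := (1 / 2 : ℝ) ^ v) (by positivity), pow_succ]
    linarith

lemma S_sub (e : ℕ → Bool) {u v : ℕ} (h : u ≤ v) : S e (3 * v) - S e (3 * u) =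
    (∑ m ∈ Ico u v, sg (e (3 * m + 1)) * (1 / 2) ^ m, ∑ m ∈ Ico u v, sg (e (3 * m)) * (1 / 2) ^ m)
      + ∑ m ∈ Ico u v, sg (e (3 * m + 2)) • c (m / 2) := by
  rw [S_three, S_three, sum_Ico_eq_sub _ h, sum_Ico_eq_sub _ h, sum_Ico_eq_sub _ h]
  ext <;> simp <;> ring

lemma stage (e : ℕ → Bool) (k : ℕ)
    (h : |(S e (3 * (2 * σ k + 2 * P k))).1 - (S e (3 * (2 * σ k))).1| ≤ 1) :
    |(S e (3 * (2 * σ (k + 1)))).2 - (S e (3 * (2 * σ k))).2| ≤ 5 * (1 / 2) ^ (2 * σ k) := by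
  set J := ∑ m ∈ Ico (2 * σ k) (2 * σ k + 2 * P k), sg (e (3 * m + 2)) with hJ
  have hu : ∑ m ∈ Ico (2 * σ k) (2 * σ k + 2 * P k), sg (e (3 * m + 2)) • c (m / 2) =
      J • (1 / (k + 1 : ℝ), 1 / (4 ^ σ k * (k + 1 : ℝ))) := by
    rw [hJ, sum_smul]
    refine sum_congr rfl fun m hm => ?_
    have := mem_Ico.1 hm
    rw [c_u (k := k) (by omega) (by omega)]
  have hw : (∑ m ∈ Ico (2 * σ k + 2 * P k) (2 * σ (k + 1)),
      sg (e (3 * m + 2)) • c (m / 2)).2 = 0 := by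
    rw [Prod.snd_sum]
    refine sum_eq_zero fun m hm => ?_
    have := mem_Ico.1 hm
    rw [c_w (k := k) (by omega) (by omega)]
    simp
  have hs := σ_succ k
  rw [← Prod.fst_sub, S_sub e (by omega), hu] at h
  rw [← Prod.snd_sub, S_sub e (by omega),
    ← sum_Ico_consecutive (fun m => sg (e (3 * m + 2)) • c (m / 2)) (n := 2 * σ k + 2 * P k)
      (by omega) (by omega), hu]
  simp only [Prod.fst_add, Prod.snd_add, Prod.smul_fst, Prod.smul_snd, smul_eq_mul, hw,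
    add_zero] at h ⊢
  have g1 := geo_le (fun m => e (3 * m + 1)) (u := 2 * σ k) (v := 2 * σ k + 2 * P k) (by omega)
  have g2 := geo_le (fun m => e (3 * m)) (u := 2 * σ k) (v := 2 * σ (k + 1)) (by omega)
  have p1 : (1 / 2 : ℝ) ^ (2 * σ k) ≤ 1 := pow_le_one₀ (by norm_num) (by norm_num)
  have p2 : (0 : ℝ) < (1 / 2) ^ (2 * σ k + 2 * P k) := by positivity
  have p3 : (0 : ℝ) < (1 / 2) ^ (2 * σ (k + 1)) := by positivity
  have p4 : (0 : ℝ) < (1 / 2) ^ (2 * σ k) := by positivity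
  have h3 : |J * (1 / (k + 1 : ℝ))| ≤ 3 := by
    rw [abs_le] at h g1 ⊢
    constructor <;> linarith [h.1, h.2, g1.1, g1.2]
  have e1 : J * (1 / (4 ^ σ k * (k + 1 : ℝ))) = J * (1 / (k + 1 : ℝ)) * (1 / 2) ^ (2 * σ k) := by
    rw [pow_mul, one_div_pow, one_div_pow]
    norm_num
    ring
  refine (abs_add_le _ _).trans ?_
  rw [e1, abs_mul, abs_of_pos p4]
  nlinarith

lemma close {e : ℕ → Bool} {L : ℝ × ℝ} (h : Tendsto (S e) atTop (𝓝 L)) :
    ∃ k0, ∀ k, k0 ≤ k → |L.2 - (S e (3 * (2 * σ k))).2| ≤ 10 * (1 / 2) ^ (2 * σ k) := by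
  have t1 : Tendsto (fun k => 3 * (2 * σ k)) atTop atTop :=
    tendsto_atTop_mono (fun k => by have := σ_mono.id_le k; simp only [id] at this ⊢; omega)
      tendsto_id
  have t2 : Tendsto (fun k => 3 * (2 * σ k + 2 * P k)) atTop atTop :=
    tendsto_atTop_mono (fun k => by omega) t1
  have t3 := ((h.comp t2).fst_nhds.sub (h.comp t1).fst_nhds).abs
  rw [sub_self, abs_zero] at t3
  obtain ⟨k0, hk0⟩ := eventually_atTop.1 (t3.eventually (ge_mem_nhds one_pos))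
  refine ⟨k0, fun k hk => ?_⟩
  have key : ∀ K, k ≤ K → |(S e (3 * (2 * σ K))).2 - (S e (3 * (2 * σ k))).2| ≤
      10 * (1 / 2) ^ (2 * σ k) - 10 * (1 / 2) ^ (2 * σ K) := by
    intro K hK
    induction K, hK using Nat.le_induction with
    | base => simp
    | succ K hK ih =>
      have a1 := stage e K (hk0 K (hk.trans hK))
      have a2 : (1 / 2 : ℝ) ^ (2 * σ (K + 1)) ≤ (1 / 2) ^ (2 * σ K + 1) :=
        pow_le_pow_of_le_one (by norm_num) (by norm_num)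
          (by have := σ_mono (Nat.lt_succ_self K); simp only [Nat.succ_eq_add_one] at this; omega)
      rw [pow_succ] at a2
      rw [abs_le] at a1 ih ⊢
      constructor <;> linarith [a1.1, a1.2, ih.1, ih.2]
  refine le_of_tendsto ((h.comp t1).snd_nhds.sub_const _).abs ?_
  filter_upwards [eventually_ge_atTop k] with K hK
  have : (0 : ℝ) < (1 / 2) ^ (2 * σ K) := by positivity
  exact (key K hK).trans (by linarith)

def B (e : ℕ → Bool) : ℕ → ℤ
  | 0 => 0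
  | s + 1 => 2 * B e s + if e (3 * s) then 1 else 0

lemma B_sum (e : ℕ → Bool) (s : ℕ) :
    ∑ m ∈ range s, sg (e (3 * m)) * (1 / 2 : ℝ) ^ m = (4 * B e s + 2) * (1 / 2) ^ s - 2 := by
  induction s with
  | zero => simp [B]
  | succ s ih =>
    rw [sum_range_succ, ih, B, pow_succ]
    cases e (3 * s) <;> simp [sg] <;> ring

lemma B_inj {e e' : ℕ → Bool} {s : ℕ} (h : B e s = B e' s) : ∀ m < s, e (3 * m) = e' (3 * m) := by
  induction s with
  | zero => simp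
  | succ s ih =>
    have : B e s = B e' s ∧ e (3 * s) = e' (3 * s) := by
      simp only [B] at h
      revert h
      cases e (3 * s) <;> cases e' (3 * s) <;> simp <;> omega
    intro m hm
    rcases Nat.lt_succ_iff_lt_or_eq.1 hm with h1 | rfl
    · exact ih this.1 m h1
    · exact this.2

noncomputable def th (y : ℝ) (e : ℕ → Bool) (s : ℕ) : ℝ :=
  (2 ^ s * (2 + y - (∑ m ∈ range s, sg (e (3 * m + 2)) • c (m / 2)).2) - 2) / 4

lemma B_near {y : ℝ} {e : ℕ → Bool} {s : ℕ} (h : |y - (S e (3 * s)).2| ≤ 10 * (1 / 2) ^ s) :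
    ∃ i : Fin 8, B e s - ⌊th y e s⌋ + 3 = (i : ℕ) := by
  rw [S_three, Prod.snd_add, B_sum] at h
  have p : (2 : ℝ) ^ s * (1 / 2) ^ s = 1 := by rw [← mul_pow]; norm_num
  have p0 : (0 : ℝ) < 2 ^ s := by positivity
  have e1 : th y e s - B e s = 2 ^ s * (y - ((4 * B e s + 2) * (1 / 2) ^ s - 2 +
      (∑ m ∈ range s, sg (e (3 * m + 2)) • c (m / 2)).2)) / 4 := by
    unfold th
    linear_combination (4 * (B e s : ℝ) + 2) / 4 * p
  have e2 : |th y e s - B e s| ≤ 5 / 2 := by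
    rw [e1, abs_div, abs_mul, abs_of_pos p0, div_le_iff₀ (by norm_num)]
    have := mul_le_mul_of_nonneg_left h p0.le
    norm_num at this ⊢
    nlinarith
  rw [abs_le] at e2
  have f1 : B e s - 3 ≤ ⌊th y e s⌋ := Int.le_floor.2 (by push_cast; linarith [e2.1])
  have f2 : ⌊th y e s⌋ < B e s + 3 := Int.floor_lt.2 (by push_cast; linarith [e2.2])
  exact ⟨⟨(B e s - ⌊th y e s⌋ + 3).toNat, by omega⟩, by simp only; omega⟩

def piece (y : ℝ) (s : ℕ) (i : (Fin s → Bool × Bool) × Fin 8) : Set Om :=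
  {e | (∀ m : Fin s, (e (3 * m + 1), e (3 * m + 2)) = i.1 m) ∧ B e s - ⌊th y e s⌋ + 3 = (i.2 : ℕ)}

lemma diam_piece (y : ℝ) (s : ℕ) (i : (Fin s → Bool × Bool) × Fin 8) :
    Metric.ediam (piece y s i) ≤ (2⁻¹ : ℝ≥0∞) ^ (3 * s) := by
  refine Metric.ediam_le fun e he e' he' => ?_
  have h1 : ∀ m < s, e (3 * m + 1) = e' (3 * m + 1) ∧ e (3 * m + 2) = e' (3 * m + 2) :=
    fun m hm => Prod.ext_iff.1 ((he.1 ⟨m, hm⟩).trans (he'.1 ⟨m, hm⟩).symm)
  have h2 : th y e s = th y e' s := by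
    unfold th
    rw [sum_congr rfl fun m hm => by rw [(h1 m (mem_range.1 hm)).2]]
  have h3 : B e s = B e' s := by
    have a := he.2
    have b := he'.2
    rw [h2] at a
    omega
  have h4 : e ∈ PiNat.cylinder (E := fun _ : ℕ => Bool) e' (3 * s) := by
    intro n hn
    have hn : n < 3 * s := hn
    obtain ⟨m, hm⟩ : ∃ m, n = 3 * m ∨ n = 3 * m + 1 ∨ n = 3 * m + 2 := ⟨n / 3, by omega⟩
    rcases hm with rfl | rfl | rfl
    · exact B_inj h3 m (by omega)
    · exact (h1 m (by omega)).1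
    · exact (h1 m (by omega)).2
  have h5 : dist e e' ≤ (1 / 2) ^ (3 * s) := PiNat.mem_cylinder_iff_dist_le.1 h4
  rw [edist_dist]
  refine (ENNReal.ofReal_le_ofReal h5).trans (le_of_eq ?_)
  rw [ENNReal.ofReal_pow (by norm_num), one_div, ENNReal.ofReal_inv_of_pos two_pos]
  simp

lemma sum_piece (y : ℝ) (s : ℕ) :
    ∑ i, Metric.ediam (piece y s i) ^ (((2 / 3 : ℝ≥0)) : ℝ) ≤ 8 := by
  have h : ∀ i ∈ (univ : Finset ((Fin s → Bool × Bool) × Fin 8)),
      Metric.ediam (piece y s i) ^ (((2 / 3 : ℝ≥0)) : ℝ) ≤ (2⁻¹ : ℝ≥0∞) ^ (2 * s) := by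
    intro i _
    refine (ENNReal.rpow_le_rpow (diam_piece y s i) (by positivity)).trans (le_of_eq ?_)
    rw [← ENNReal.rpow_natCast, ← ENNReal.rpow_natCast, ← ENNReal.rpow_mul]
    congr 1
    push_cast
    ring
  refine (sum_le_card_nsmul _ _ _ h).trans (le_of_eq ?_)
  have : ((2 : ℝ≥0∞) * 2) ^ s * 2⁻¹ ^ (2 * s) = 1 := by
    rw [pow_mul, ← mul_pow, sq, mul_mul_mul_comm, ENNReal.mul_inv_cancel (by simp) (by simp)]
    simp
  simp only [card_univ, Fintype.card_prod, Fintype.card_pi, Fintype.card_bool, prod_const,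
    Fintype.card_fin, nsmul_eq_mul]
  push_cast
  rw [show (2 : ℝ≥0∞) * 2 = 4 by norm_num] at this
  rw [mul_right_comm, this, one_mul]

theorem result : ∃ a : ℕ → ℝ × ℝ, Tendsto a atTop (𝓝 0) ∧ (∀ L, (EL a L).Nonempty) ∧
    ∀ L, dimH (EL a L) ≤ 2 / 3 := by
  refine ⟨a, a_tendsto, exists_sign, fun L => ?_⟩
  have hsub : EL a L ⊆ ⋃ k0 : ℕ, {e : Om | ∀ k, k0 ≤ k →
      |L.2 - (S e (3 * (2 * σ k))).2| ≤ 10 * (1 / 2) ^ (2 * σ k)} :=
    fun e he => Set.mem_iUnion.2 (close he)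
  refine (dimH_mono hsub).trans ?_
  rw [dimH_iUnion]
  refine iSup_le fun k0 => ?_
  borelize Om
  have e : (2 / 3 : ℝ≥0∞) = ((2 / 3 : ℝ≥0) : ℝ≥0∞) := by
    rw [ENNReal.coe_div (by norm_num)]
    simp
  rw [e]
  refine dimH_le_of_hausdorffMeasure_ne_top (ne_top_of_le_ne_top (b := 8) (by simp) ?_)
  have t1 : Tendsto (fun k => 3 * (2 * σ k)) atTop atTop :=
    tendsto_atTop_mono (fun k => by have := σ_mono.id_le k; simp only [id] at this ⊢; omega)
      tendsto_id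
  refine (Measure.hausdorffMeasure_le_liminf_sum _ _ (l := atTop)
    (fun k => (2⁻¹ : ℝ≥0∞) ^ (3 * (2 * σ k)))
    ((ENNReal.tendsto_pow_atTop_nhds_zero_of_lt_one (by simp)).comp t1)
    (fun k => piece L.2 (2 * σ k)) (Eventually.of_forall fun k => diam_piece _ _) ?_).trans ?_
  · filter_upwards [eventually_ge_atTop k0] with k hk e he
    obtain ⟨i, hi⟩ := B_near (he k hk)
    exact Set.mem_iUnion.2 ⟨(fun m => (e (3 * m + 1), e (3 * m + 2)), i), fun _ => rfl, hi⟩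
  · exact liminf_le_of_frequently_le' (Frequently.of_forall fun k => sum_piece _ _)

end Pool.Agent.Results.MP_b48a23_an.Counter
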